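import Pool.Agent.helper64.PC.Asm

set_option autoImplicit false

namespace Pool.Agent.Results.MP_069684_lc.AllBases

open Pool.Agent.PB Pool.Agent.PC

/-- P/Poly against NP/Poly over every set `G` of Boolean gates, finite or infinite, with bounds on the number of inputs
of the gates.
(T) All gates affine, or all conjunctions (or constants), or all disjunctions (or constants): every function with
circuits over `G` has such circuits of linear size with boundedly many inputs per gate.
(W) Not (T), and all gates are monotone, or for some `k ≥ 2` any `k` ones of every gate have a common coordinate 1 but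
not all ones of every gate do (or dually): circuits over `G` with at most `r` inputs per gate are at most as strong as
circuits of arbitrary monotone gates with at most `r` inputs, and for every `m` with `m(n) (lg n)^19 ≤ n` there is a language
in P/Poly which needs `2^((n/m)^(1/19))` gates of `G` with at most `m(n)` inputs.
(E) Otherwise circuits over `G` with boundedly many inputs per gate are as strong as unrestricted circuits up to a
constant factor (on the functions they can compute), and if the gates of `G` have circuits of polynomial size the question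
for `G` is the question NP/Poly = P/Poly, or, if all gates are self-dual, the question whether a language is in P/Poly if it
and its complement are in NP/Poly. -/
theorem result (G : Set Gate) :
    (Trivial G →
      (∃ c : ℕ, ∀ n, 1 ≤ n → ∀ f : BF n, (∃ s, Size G f s) → Size (upTo G c) f (c * n)) ∧
      ∀ (m : ℕ → ℕ) (A : Lang), Slices G A → PolyF G m A) ∧
    (Weak G →
      (∃ c : ℕ, ∀ (n : ℕ) (h : BF n), 1 ≤ n → Mono h → ∃ k, 1 ≤ k ∧ k ≤ c * n ∧ ∃ f : BF k,
        (∃ s, Size G f s) ∧ (∀ s, Size std h s → Size std f (c * (s + n))) ∧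
        ∀ r s, Size (upTo G r) f s → Size (upTo monG r) h (s + 2)) ∧
      (∀ m : ℕ → ℕ, (∃ n₁ : ℕ, ∀ n, n₁ ≤ n → 1 ≤ m n ∧ (m n : ℝ) * Real.logb 2 n ^ 19 ≤ n) →
        ∃ A : Lang, InPPoly A ∧ Slices G A ∧ ∃ n₀ : ℕ, ∀ n, n₀ ≤ n → ∀ s : ℕ, Size (upTo G (m n)) (A n) s →
          (2 : ℝ) ^ (((n : ℝ) / m n) ^ (1 / 19 : ℝ)) ≤ s) ∧
      ∀ m : ℕ → ℕ, (∃ n₁ : ℕ, ∀ n, n₁ ≤ n → (m n : ℝ) * Real.logb 2 n ^ 20 ≤ n) →
        ¬ ∀ A : Lang, Slices G A → InNPPoly A → PolyF G m A) ∧
    (¬ Trivial G → ¬ Weak G →
      (∃ c : ℕ, ∀ n, 1 ≤ n → ∀ f : BF n, (∃ s, Size G f s) → ∀ s, Size std f s →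
        Size (upTo G c) f (c * (s + n))) ∧
      (PolyGates G → ∀ m : ℕ → ℕ, (∃ d : ℕ, ∀ n, m n ≤ n ^ d + d) →
        ((∃ g ∈ G, ¬ SelfDual g.2) →
          ((∀ A : Lang, Slices G A → InNPPoly A → PolyF G m A) ↔ ∀ A : Lang, InNPPoly A → InPPoly A)) ∧
        ((∀ g ∈ G, SelfDual g.2) →
          ((∀ A : Lang, Slices G A → InNPPoly A → PolyF G m A) ↔
            ∀ A : Lang, InNPPoly A → InNPPoly (Pool.Agent.PB.compl A) → InPPoly A)))) :=
  main_of pBFT pWTM pQWM pNQW pBFE pQEM pQSM G

end Pool.Agent.Results.MP_069684_lc.AllBases
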